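import Mathlib

/-!
# MP_dfba20_nt: indices n with b(n) = phi(n)

`IsUlam u`: `u 1, u 2, ...` are the U-numbers. `IsRep u n i j`: `u (n + 3) = u i + u j` is the
representation of `u (n + 3)`. `b u n = n + 1 - j`.
-/

set_option autoImplicit false

namespace Pool.Agent.Results.MP_dfba20_nt.PrimeIndices

/-- `u 1, u 2, ...` is the sequence of the U-numbers (Ulam numbers): `u 1 = 1`, `u 2 = 2` and, for
`k ≥ 3`, `u k` is the least `m > u (k - 1)` which has exactly one representation `m = u i + u j`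
with `1 ≤ j < i ≤ k - 1`. -/
def IsUlam (u : ℕ → ℕ) : Prop :=
  u 1 = 1 ∧ u 2 = 2 ∧ ∀ k, 3 ≤ k → IsLeast {m : ℕ | u (k - 1) < m ∧
    ∃! p : ℕ × ℕ, 1 ≤ p.2 ∧ p.2 < p.1 ∧ p.1 ≤ k - 1 ∧ m = u p.1 + u p.2} (u k)

/-- `i > j ≥ 1`, `i ≤ n + 2` and `u (n + 3) = u i + u j`. -/
def IsRep (u : ℕ → ℕ) (n i j : ℕ) : Prop :=
  1 ≤ j ∧ j < i ∧ i ≤ n + 2 ∧ u (n + 3) = u i + u j

/-- `b(n) = n + 1 - j`, where `u (n + 3) = u i + u j` is the representation. -/
noncomputable def b (u : ℕ → ℕ) (n : ℕ) : ℕ :=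
  sInf {t : ℕ | ∃ i j, IsRep u n i j ∧ t + j = n + 1}

theorem rep_exists (u : ℕ → ℕ) (hu : IsUlam u) (n : ℕ) : ∃ i j, IsRep u n i j ∧
    ∀ i' j', IsRep u n i' j' → i' = i ∧ j' = j := by
  have h := (hu.2.2 (n + 3) (by omega)).1
  obtain ⟨_, ⟨p, ⟨h1, h2, h3, h4⟩, hu'⟩⟩ := h
  refine ⟨p.1, p.2, ⟨h1, h2, by omega, h4⟩, ?_⟩
  rintro i' j' ⟨k1, k2, k3, k4⟩
  have := hu' (i', j') ⟨k1, k2, by simp only; omega, k4⟩
  rw [← this]
  exact ⟨rfl, rfl⟩

theorem rep_unique (u : ℕ → ℕ) (hu : IsUlam u) (n i j i' j' : ℕ) (h : IsRep u n i j)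
    (h' : IsRep u n i' j') : i = i' ∧ j = j' := by
  obtain ⟨a, c, _, hac⟩ := rep_exists u hu n
  have h1 := hac i j h
  have h2 := hac i' j' h'
  exact ⟨h1.1.trans h2.1.symm, h1.2.trans h2.2.symm⟩

theorem b_add (u : ℕ → ℕ) (hu : IsUlam u) (n i j : ℕ) (h : IsRep u n i j) :
    b u n + j = n + 1 := by
  have hmem : (n + 1 - j) ∈ {t : ℕ | ∃ i j, IsRep u n i j ∧ t + j = n + 1} :=
    ⟨i, j, h, by have := h.2.1; have := h.2.2.1; omega⟩
  have := Nat.sInf_mem ⟨_, hmem⟩
  obtain ⟨i', j', h1, h2⟩ := this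
  obtain ⟨-, h3⟩ := rep_unique u hu n i j i' j' h h1
  rw [h3]
  exact h2

theorem lt_succ (u : ℕ → ℕ) (hu : IsUlam u) (k : ℕ) (hk : 1 ≤ k) : u k < u (k + 1) := by
  rcases Nat.lt_or_ge k 2 with h | h
  · have : k = 1 := by omega
    subst this
    rw [hu.1, hu.2.1]
    norm_num
  · have := (hu.2.2 (k + 1) (by omega)).1.1
    simpa using this

theorem lt_of_lt (u : ℕ → ℕ) (hu : IsUlam u) (i k : ℕ) (hi : 1 ≤ i) (h : i < k) : u i < u k := by
  induction k, h using Nat.le_induction with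
  | base => exact lt_succ u hu i hi
  | succ k hk ih => exact ih.trans (lt_succ u hu k (by omega))

theorem prime_case (u : ℕ → ℕ) (hu : IsUlam u) (n : ℕ) (hn : n.Prime) :
    b u n = n.totient ↔ u (n + 3) = u (n + 2) + 2 := by
  have hn2 := hn.two_le
  rw [Nat.totient_prime hn]
  constructor
  · intro h
    obtain ⟨i, j, hij, -⟩ := rep_exists u hu n
    have h1 := b_add u hu n i j hij
    have hj : j = 2 := by omega
    subst hj
    obtain ⟨k1, k2, k3, k4⟩ := hij
    rw [hu.2.1] at k4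
    by_cases hi : i = n + 2
    · rw [hi] at k4
      exact k4
    · exfalso
      have e1 : u (n + 2) < u (n + 3) := lt_succ u hu (n + 2) (by omega)
      have e2 : u (n + 1) < u (n + 2) := lt_succ u hu (n + 1) (by omega)
      have hi1 : i = n + 1 := by
        by_contra hne
        have e3 : u i < u (n + 1) := lt_of_lt u hu i (n + 1) (by omega) (by omega)
        omega
      subst hi1
      have r1 : IsRep u n (n + 1) 2 := ⟨by norm_num, by omega, by omega, by rw [hu.2.1]; exact k4⟩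
      have r2 : IsRep u n (n + 2) 1 := ⟨le_rfl, by omega, by omega, by rw [hu.1]; omega⟩
      have := (rep_unique u hu n _ _ _ _ r1 r2).1
      omega
  · intro h
    have r1 : IsRep u n (n + 2) 2 := ⟨by norm_num, by omega, le_rfl, by rw [hu.2.1]; exact h⟩
    have h1 := b_add u hu n _ _ r1
    omega

theorem composite_bound (n : ℕ) (hn : 2 ≤ n) (hp : ¬ n.Prime) : n ≤ (n - n.totient) ^ 2 := by
  classical
  set p := n.minFac with hpdef
  have hpp : p.Prime := Nat.minFac_prime (by omega)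
  have hdvd : p ∣ n := Nat.minFac_dvd n
  have hsq : p ^ 2 ≤ n := Nat.minFac_sq_le_self (by omega) hp
  obtain ⟨q, hq⟩ := hdvd
  have hp0 := hpp.pos
  have hqp : p ≤ q := by nlinarith
  have hcount : n.totient + q ≤ n := by
    have h1 : n.totient = ((Finset.range n).filter (fun a => n.Coprime a)).card := rfl
    have h2 : q ≤ ((Finset.range n).filter (fun a => ¬ n.Coprime a)).card := by
      have h3 : ((Finset.range q).image (fun k => p * k)).card = q := by
        rw [Finset.card_image_of_injective _ (fun a c h => Nat.eq_of_mul_eq_mul_left hp0 h),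
          Finset.card_range]
      rw [← h3]
      refine Finset.card_le_card ?_
      intro x hx
      rw [Finset.mem_image] at hx
      obtain ⟨k, hk, rfl⟩ := hx
      rw [Finset.mem_range] at hk
      rw [Finset.mem_filter, Finset.mem_range]
      refine ⟨?_, ?_⟩
      · calc p * k < p * q := Nat.mul_lt_mul_of_pos_left hk hp0
          _ = n := hq.symm
      · intro hc
        have h4 : p ∣ Nat.gcd n (p * k) := Nat.dvd_gcd ⟨q, hq⟩ (Dvd.intro _ rfl)
        rw [hc] at h4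
        exact hpp.one_lt.ne' (Nat.dvd_one.1 h4)
    have h5 := Finset.card_filter_add_card_filter_not (s := Finset.range n)
      (fun a => n.Coprime a)
    rw [Finset.card_range] at h5
    omega
  have h6 : q ≤ n - n.totient := by omega
  calc n = p * q := hq
    _ ≤ q * q := Nat.mul_le_mul_right _ hqp
    _ = q ^ 2 := by ring
    _ ≤ (n - n.totient) ^ 2 := Nat.pow_le_pow_left h6 2

/-- Let `u` be the sequence of the U-numbers. For a prime `n`, `b(n) = φ(n)` if and only if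
`u (n + 3) = u (n + 2) + 2`. If `n` is composite and `b(n) = φ(n)`, then in the representation
`u (n + 3) = u i + u j`, `i > j`, the index `j` is `n + 1 - φ(n)` and `(j - 1) ^ 2 ≥ n`. Hence
`b(n) = φ(n)` for infinitely many `n` if and only if one of the two kinds occurs infinitely often. -/
theorem result (u : ℕ → ℕ) (hu : IsUlam u) :
    (∀ n, n.Prime → (b u n = n.totient ↔ u (n + 3) = u (n + 2) + 2)) ∧
    (∀ n, 2 ≤ n → ¬ n.Prime → (b u n = n.totient ↔
      ∃ i j, IsRep u n i j ∧ j = n + 1 - n.totient ∧ n ≤ (j - 1) ^ 2)) ∧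
    ({n : ℕ | 1 ≤ n ∧ b u n = n.totient}.Infinite ↔
      {n : ℕ | n.Prime ∧ u (n + 3) = u (n + 2) + 2}.Infinite ∨
      {n : ℕ | 2 ≤ n ∧ ¬ n.Prime ∧ ∃ i j, IsRep u n i j ∧ j = n + 1 - n.totient ∧
        n ≤ (j - 1) ^ 2}.Infinite) := by
  have h1 : ∀ n, n.Prime → (b u n = n.totient ↔ u (n + 3) = u (n + 2) + 2) :=
    fun n hn => prime_case u hu n hn
  have h2 : ∀ n, 2 ≤ n → ¬ n.Prime → (b u n = n.totient ↔
      ∃ i j, IsRep u n i j ∧ j = n + 1 - n.totient ∧ n ≤ (j - 1) ^ 2) := by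
    intro n hn hp
    have htot : n.totient ≤ n := Nat.totient_le n
    constructor
    · intro h
      obtain ⟨i, j, hij, -⟩ := rep_exists u hu n
      have h3 := b_add u hu n i j hij
      refine ⟨i, j, hij, by omega, ?_⟩
      have h4 : j - 1 = n - n.totient := by omega
      rw [h4]
      exact composite_bound n hn hp
    · rintro ⟨i, j, hij, hj, -⟩
      have h3 := b_add u hu n i j hij
      omega
  refine ⟨h1, h2, ?_⟩
  have hset : {n : ℕ | 1 ≤ n ∧ b u n = n.totient} ⊆ {n : ℕ | n.Prime ∧ u (n + 3) = u (n + 2) + 2} ∪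
      {n : ℕ | 2 ≤ n ∧ ¬ n.Prime ∧ ∃ i j, IsRep u n i j ∧ j = n + 1 - n.totient ∧
        n ≤ (j - 1) ^ 2} ∪ {1} := by
    rintro n ⟨hn1, hn⟩
    by_cases hp : n.Prime
    · exact Or.inl (Or.inl ⟨hp, (h1 n hp).1 hn⟩)
    · rcases Nat.lt_or_ge n 2 with h | h
      · exact Or.inr (by show n = 1; omega)
      · exact Or.inl (Or.inr ⟨h, hp, (h2 n h hp).1 hn⟩)
  constructor
  · intro hinf
    by_contra hcon
    push Not at hcon
    exact hinf (((hcon.1.union hcon.2).union (Set.finite_singleton 1)).subset hset)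
  · rintro (h | h)
    · refine h.mono ?_
      rintro n ⟨hp, hn⟩
      exact ⟨hp.one_le, (h1 n hp).2 hn⟩
    · refine h.mono ?_
      rintro n ⟨hn2, hp, hn⟩
      exact ⟨by omega, (h2 n hn2 hp).2 hn⟩

end Pool.Agent.Results.MP_dfba20_nt.PrimeIndices
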